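import Mathlib
import Pool.Agent.Lib.MP_fd6ff4_co.R43.T1.Approx
import Pool.Agent.Lib.MP_fd6ff4_co.R43.T1.CertRidge
import Pool.Agent.Lib.MP_fd6ff4_co.R43.T1.CertPhi
import Pool.Agent.Lib.MP_fd6ff4_co.R43.T1.Ridge.Sol

/-!
# The collar from the four ridge solutions
-/

set_option autoImplicit false

open Finset

namespace Pool.Agent.Lib.MP_fd6ff4_co.R43

/-- solutions of the four ridge problems, with one `w` -/
def Sols (β : Fin 4 → RW → (Fin 3 → ℝ) → ℂ) (w : ℝ) : Prop :=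
  0 < w ∧ ∀ k, RidgeSol (xk k) (zk k) (Wk k) (Tk k) (β k) w

theorem exists_sols : ∃ β w, Sols β w := by
  choose β w hw h using fun k => exists_ridgeSol (ridgeCert k)
  obtain ⟨k₀, hk₀⟩ := Finite.exists_min w
  refine ⟨β, w k₀, hw k₀, fun k => ?_⟩
  obtain ⟨h1, h2, h3, h4, h5⟩ := h k
  refine ⟨h1, h2, fun t l hl h0 i => ?_, h4, h5⟩
  exact (mul_le_mul_of_nonneg_right (hk₀ k) (sum_nonneg fun j _ => hl j)).trans (h3 t l hl h0 i)

/-- the restriction of a point to the coordinates off `k` -/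
def res (k : Fin 4) (l : Fin 4 → ℝ) : Fin 3 → ℝ := fun i => l (k.succAbove i)

/-- the restriction as a linear map -/
def resL (k : Fin 4) : (Fin 4 → ℝ) →ₗ[ℝ] (Fin 3 → ℝ) where
  toFun := res k
  map_add' _ _ := rfl
  map_smul' _ _ := rfl

theorem res_nonneg {k : Fin 4} {l : Fin 4 → ℝ} (h : ∀ i, 0 ≤ l i) (i : Fin 3) : 0 ≤ res k l i :=
  h _

theorem continuous_res (k : Fin 4) : Continuous (res k) :=
  continuous_pi fun _ => continuous_apply _

theorem sum_res (k : Fin 4) (l : Fin 4 → ℝ) : ∑ i, l i = l k + ∑ i, res k l i :=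
  Fin.sum_univ_succAbove _ k

theorem sum_erase_res (k : Fin 4) (l : Fin 4 → ℝ) : ∑ i ∈ univ.erase k, l i = ∑ i, res k l i := by
  have h1 := sum_res k l
  rw [← Finset.add_sum_erase univ l (mem_univ k)] at h1
  linarith

theorem res_mem {k : Fin 4} {l : Fin 4 → ℝ} (h : l ∈ DD) (h0 : l k = 0) :
    res k l ∈ stdSimplex ℝ (Fin 3) := by
  refine ⟨fun i => h.1 _, ?_⟩
  have h1 := sum_res k l
  rw [h.2, h0] at h1
  linarith

/-- the collar given by the ridge solutions -/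
noncomputable def mkCollar {β : Fin 4 → RW → (Fin 3 → ℝ) → ℂ} {w : ℝ} (h : Sols β w) : Collar where
  x i a := xx i a
  z i a := ((zz i a : ℝ) : ℂ)
  x_inj i a b hab := by
    have h1 : ∀ i, Function.Injective (xx i) := by decide +kernel
    exact h1 i (Int.cast_injective (α := ℝ) hab)
  planes f _ g _ h' _ hfg hfh hgh := cert_planes hfg hfh hgh
  bh k f l := β k (rw3 k f) (res k l)
  re_pl k f := ((h.2 k).re_pl (rw3 k f)).comp (resL k) fun _ hx _ => hx _
  im_pl k f := ((h.2 k).im_pl (rw3 k f)).comp (resL k) fun _ hx _ => hx _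
  coord k f l l' hl := by
    have e : res k l = res k l' := funext fun i => hl _ (Fin.succAbove_ne k i)
    rw [e]
  letter k f g hfg := by
    have e : rw3 k f = rw3 k g := funext fun i => hfg _ (Fin.succAbove_ne k i)
    rw [e]
  w := w
  w_pos := h.1
  supp k f l hl h0 j hj := by
    obtain ⟨i, rfl⟩ := Fin.exists_succAbove_eq hj
    rw [sum_erase_res]
    exact (h.2 k).supp _ _ (fun i => hl _) h0 i

section

variable {β : Fin 4 → RW → (Fin 3 → ℝ) → ℂ} {w : ℝ} (h : Sols β w)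

theorem mk_bh (k : Fin 4) (f : Word) (l : Fin 4 → ℝ) :
    (mkCollar h).bh k f l = β k (rw3 k f) (res k l) := rfl

theorem xf_res (k : Fin 4) (f : Word) (l : Fin 4 → ℝ) :
    (mkCollar h).xf f l = xx k (f k) * l k + lin (xk k) (rw3 k f) (res k l) := by
  rw [Collar.xf_apply, lin_apply, Fin.sum_univ_succAbove _ k]
  rfl

theorem zf_res (k : Fin 4) (f : Word) (l : Fin 4 → ℝ) :
    (mkCollar h).zf f l = ((zz k (f k) * l k + lin (zk k) (rw3 k f) (res k l) : ℝ) : ℂ) := by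
  rw [Collar.zf, lin_apply, Fin.sum_univ_succAbove _ k]
  push_cast
  rw [mul_comm]
  congr 1
  refine sum_congr rfl fun i _ => ?_
  rw [mul_comm]
  rfl

/-- the difference of the real coordinates -/
theorem xf_sub (f g : Word) (l : Fin 4 → ℝ) :
    (mkCollar h).xf f l - (mkCollar h).xf g l = ∑ i, ((xx i (f i) : ℝ) - xx i (g i)) * l i := by
  rw [Collar.xf_apply, Collar.xf_apply, ← sum_sub_distrib]
  exact sum_congr rfl fun i _ => (sub_mul _ _ _).symm

/-- the difference of the linear parts of the complex coordinates (it is real) -/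
theorem zf_sub (f g : Word) (l : Fin 4 → ℝ) :
    (mkCollar h).zf f l - (mkCollar h).zf g l =
      ((∑ i, ((zz i (f i) : ℝ) - zz i (g i)) * l i : ℝ) : ℂ) := by
  rw [Collar.zf, Collar.zf, ← sum_sub_distrib]
  push_cast
  refine sum_congr rfl fun i _ => ?_
  change (l i : ℂ) * ((zz i (f i) : ℝ) : ℂ) - (l i : ℂ) * ((zz i (g i) : ℝ) : ℂ) = _
  push_cast
  ring

/-- (N0) on the face `l k = 0` only `bh k` survives -/
theorem bh_zero {l : Fin 4 → ℝ} (hl : l ∈ DD) {k j : Fin 4} (hk : l k = 0) (hjk : k ≠ j) (f : Word) :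
    (mkCollar h).bh j f l = 0 := by
  by_contra h0
  obtain ⟨i, hi⟩ := Fin.exists_succAbove_eq hjk
  have h1 : w * ∑ i, res j l i ≤ res j l i := (h.2 j).supp _ _ (fun i => hl.1 _) h0 i
  have h2 : res j l i = 0 := by
    change l (j.succAbove i) = 0
    rw [hi, hk]
  rw [h2] at h1
  have h3 : ∑ i, res j l i ≤ 0 := by
    by_contra h4
    exact absurd (mul_pos h.1 (not_le.1 h4)) (not_lt.2 h1)
  have h4 : res j l = 0 := by
    funext i
    have h5 := (Finset.sum_eq_zero_iff_of_nonneg (fun i _ => res_nonneg (k := j) hl.1 i)).1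
      (le_antisymm h3 (sum_nonneg fun i _ => res_nonneg (k := j) hl.1 i))
    exact h5 i (mem_univ i)
  apply h0
  rw [mk_bh, h4]
  exact Complex.ext ((h.2 j).re_pl _).zero ((h.2 j).im_pl _).zero

/-- the complex coordinate on the face `l k = 0` -/
theorem Y0_face {l : Fin 4 → ℝ} (hl : l ∈ DD) {k : Fin 4} (hk : l k = 0) (f : Word) :
    (mkCollar h).Y0 f l = ((lin (zk k) (rw3 k f) (res k l) : ℝ) : ℂ) + β k (rw3 k f) (res k l) := by
  rw [Collar.Y0, zf_res h k, hk, mul_zero, zero_add]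
  congr 1
  rw [Finset.sum_eq_single k (fun j _ hj => bh_zero h hl hk hj.symm f)
    (fun h1 => absurd (mem_univ k) h1)]
  rfl

/-- the restriction of a point of `PP f g` on the face `l k = 0` -/
theorem res_seg {f g : Word} {l : Fin 4 → ℝ} (hl : l ∈ (mkCollar h).PP f g) {k : Fin 4}
    (hk : l k = 0) : res k l ∈ Seg (xk k) (rw3 k f) (rw3 k g) := by
  refine ⟨res_mem hl.1 hk, ?_⟩
  have h1 := hl.2
  rw [xf_res h k, xf_res h k, hk, mul_zero, mul_zero, zero_add, zero_add] at h1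
  exact h1

theorem isCompact_PP (f g : Word) : IsCompact ((mkCollar h).PP f g) := by
  have h1 : (mkCollar h).PP f g = DD ∩ {l | (mkCollar h).xf f l = (mkCollar h).xf g l} := rfl
  rw [h1]
  refine (isCompact_stdSimplex ℝ (Fin 4)).inter_right (isClosed_eq ?_ ?_)
  · exact LinearMap.continuous_of_finiteDimensional _
  · exact LinearMap.continuous_of_finiteDimensional _

end

/-- the smallest coordinate -/
noncomputable def minc (l : Fin 4 → ℝ) : ℝ := min (min (l 0) (l 1)) (min (l 2) (l 3))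

theorem continuous_minc : Continuous minc := by
  unfold minc
  fun_prop

theorem minc_le {l : Fin 4 → ℝ} {ε : ℝ} : minc l ≤ ε ↔ ∃ i, l i ≤ ε := by
  simp only [minc, min_le_iff]
  constructor
  · rintro ((h | h) | (h | h))
    · exact ⟨0, h⟩
    · exact ⟨1, h⟩
    · exact ⟨2, h⟩
    · exact ⟨3, h⟩
  · rintro ⟨i, hi⟩
    fin_cases i
    · exact Or.inl (Or.inl hi)
    · exact Or.inl (Or.inr hi)
    · exact Or.inr (Or.inl hi)
    · exact Or.inr (Or.inr hi)

theorem minc_nonneg {l : Fin 4 → ℝ} (hl : ∀ i, 0 ≤ l i) : 0 ≤ minc l :=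
  le_min (le_min (hl 0) (hl 1)) (le_min (hl 2) (hl 3))

theorem minc_zero {l : Fin 4 → ℝ} (hl : ∀ i, 0 ≤ l i) : minc l = 0 ↔ ∃ i, l i = 0 := by
  constructor
  · intro h
    obtain ⟨i, hi⟩ := minc_le.1 h.le
    exact ⟨i, le_antisymm hi (hl i)⟩
  · rintro ⟨i, hi⟩
    exact le_antisymm (minc_le.2 ⟨i, hi.le⟩) (minc_nonneg hl)

/-- the near-boundary claim for one pair -/
def NearPair (C : Collar) (f g : Word) (ε : ℝ) : Prop :=
  ∃ L : (Fin 4 → ℝ) → ℂ,
    ContinuousOn L {l | l ∈ C.PP f g ∧ (∃ i, l i ≤ ε) ∧ ¬ Agree f g l} ∧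
    ∀ l ∈ C.PP f g, (∃ i, l i ≤ ε) → ¬ Agree f g l → Complex.exp (L l) = C.Y0 f l - C.Y0 g l

theorem NearPair.mono {C : Collar} {f g : Word} {ε ε' : ℝ} (h : NearPair C f g ε) (hε : ε' ≤ ε) :
    NearPair C f g ε' := by
  obtain ⟨L, h1, h2⟩ := h
  refine ⟨L, h1.mono fun l hl => ⟨hl.1, ?_, hl.2.2⟩, fun l hl hi => h2 l hl ?_⟩
  · obtain ⟨i, hi⟩ := hl.2.1
    exact ⟨i, hi.trans hε⟩
  · obtain ⟨i, hi⟩ := hi
    exact ⟨i, hi.trans hε⟩

theorem near_of_pairs {C : Collar}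
    (h : ∀ f ∈ words, ∀ g ∈ words, f ≠ g → ∃ ε : ℝ, 0 < ε ∧ NearPair C f g ε) :
    ∃ ε : ℝ, 0 < ε ∧ C.Near ε := by
  have h1 : ∀ p : Word × Word, ∃ ε : ℝ, 0 < ε ∧
      (p.1 ∈ words → p.2 ∈ words → p.1 ≠ p.2 → NearPair C p.1 p.2 ε) := by
    intro p
    by_cases hp : p.1 ∈ words ∧ p.2 ∈ words ∧ p.1 ≠ p.2
    · obtain ⟨ε, h2, h3⟩ := h p.1 hp.1 p.2 hp.2.1 hp.2.2
      exact ⟨ε, h2, fun _ _ _ => h3⟩
    · exact ⟨1, one_pos, fun h2 h3 h4 => absurd ⟨h2, h3, h4⟩ hp⟩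
  choose e he hn using h1
  obtain ⟨p₀, hp₀⟩ := Finite.exists_min e
  exact ⟨e p₀, he p₀, fun f hf g hg hfg => (hn (f, g) hf hg hfg).mono (hp₀ (f, g))⟩

/-- a pair with no point to consider -/
theorem nearPair_of_agree {C : Collar} {f g : Word} (h : ∀ l ∈ C.PP f g, Agree f g l) :
    ∃ ε : ℝ, 0 < ε ∧ NearPair C f g ε := by
  refine ⟨1, one_pos, fun _ => 0, continuousOn_const, fun l hl _ hn => absurd (h l hl) hn⟩

end Pool.Agent.Lib.MP_fd6ff4_co.R43
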