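import Mathlib
import Pool.Agent.Lib.MP_fd6ff4_co.R43.T1.Near.Base

/-!
# The logarithm on the cone over a ridge segment
-/

set_option autoImplicit false

open Finset

namespace Pool.Agent.Lib.MP_fd6ff4_co.R43

/-- exactly one side is not hit -/
theorem oneA_hit {x : Fin 3 → Fin 3 → ℤ} (hinj : ∀ i, Function.Injective (x i)) {t t' : RW}
    (hc : Crossing x t t') : ∃ a : Fin 3, ∀ c, Hit x t t' c ↔ c ≠ a := by
  have hd : ∀ i, dd x t t' i ≠ 0 := fun i h => hc.1 i (hinj i (sub_eq_zero.1 h))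
  have key : ∀ s : Fin 3 → Bool, (∃ i j, s i = false ∧ s j = true) →
      ∃ a, ∀ c, (∃ i j, i ≠ c ∧ j ≠ c ∧ s i = false ∧ s j = true) ↔ c ≠ a := by decide
  have hneg : ∀ i, dd x t t' i < 0 ↔ decide (0 < dd x t t' i) = false := by
    intro i
    rw [decide_eq_false_iff_not, not_lt]
    exact ⟨le_of_lt, fun h => lt_of_le_of_ne h (hd i)⟩
  have hpos : ∀ i, 0 < dd x t t' i ↔ decide (0 < dd x t t' i) = true := by
    intro i
    rw [decide_eq_true_iff]
  obtain ⟨i, j, hi, hj⟩ := hc.2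
  obtain ⟨a, ha⟩ := key (fun i => decide (0 < dd x t t' i)) ⟨i, j, (hneg i).1 hi, (hpos j).1 hj⟩
  refine ⟨a, fun c => ?_⟩
  rw [← ha c]
  constructor
  · rintro ⟨p, q, h1, h2, h3, h4⟩
    exact ⟨p, q, h1, h2, (hneg p).1 h3, (hpos q).1 h4⟩
  · rintro ⟨p, q, h1, h2, h3, h4⟩
    exact ⟨p, q, h1, h2, (hneg p).2 h3, (hpos q).2 h4⟩

/-- There are phases for a crossing pair. PROOF. Exactly two sides `b < b'` are hit (let `a` be the
vertex where `dd x t t'` has the other sign than at the two other vertices; the side `a` is not hit,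
the two others are; all `dd x t t' i` are nonzero by `x_inj`). Let `φ b'` be `0` if
`0 < sideVal x z t t' b'` and `1` otherwise, and `φ b = φ b' + T t t'`; use `parity`. -/
theorem exists_phase {x z : Fin 3 → Fin 3 → ℤ} {W : Finset RW} {T : RW → RW → ℤ}
    {v : RW → RW → Fin 3 → ℤ} (h : RidgeCert x z W T v) {t t' : RW} (ht : t ∈ W) (ht' : t' ∈ W)
    (hc : Crossing x t t') :
    ∃ φ : Fin 3 → ℤ, (∀ c, Hit x t t' c → (Even (φ c) ↔ 0 < sideVal x z t t' c)) ∧
      ∀ c c', c < c' → Hit x t t' c → Hit x t t' c' → φ c - φ c' = T t t' := by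
  obtain ⟨a, ha⟩ := oneA_hit h.x_inj hc
  have h2 : ∀ a : Fin 3, ∃ b b' : Fin 3, b < b' ∧ b ≠ a ∧ b' ≠ a ∧
      ∀ c, c ≠ a → c = b ∨ c = b' := by decide
  obtain ⟨b, b', hbb, hb, hb', hcov⟩ := h2 a
  have hp := h.parity t ht t' ht' hc b b' hbb.ne ((ha b).2 hb) ((ha b').2 hb')
  set e : ℤ := if 0 < sideVal x z t t' b' then 0 else 1 with he
  have he' : Even e ↔ 0 < sideVal x z t t' b' := by
    rw [he]
    split_ifs with h3
    · exact ⟨fun _ => h3, fun _ => Even.zero⟩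
    · exact ⟨fun h4 => absurd h4 (by decide), fun h4 => absurd h4 h3⟩
  refine ⟨fun c => if c = b' then e else e + T t t', fun c hcc => ?_, fun c c' hlt h3 h4 => ?_⟩
  · rcases hcov c ((ha c).1 hcc) with rfl | rfl
    · beta_reduce
      rw [if_neg hbb.ne, Int.even_add, he', hp]
      tauto
    · beta_reduce
      rw [if_pos rfl]
      exact he'
  · beta_reduce
    rcases hcov c ((ha c).1 h3) with rfl | rfl
    · rcases hcov c' ((ha c').1 h4) with rfl | rfl
      · exact absurd hlt (lt_irrefl _)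
      · rw [if_pos rfl, if_neg hbb.ne]
        ring
    · rcases hcov c' ((ha c').1 h4) with rfl | rfl
      · exact absurd hlt (not_lt.2 hbb.le)
      · exact absurd hlt (lt_irrefl _)

/-- PROOF. For `y` in the set let `s = ∑ i, y i > 0`; then `s⁻¹ • y ∈ Seg x t t'` and
`L y = log s + L₀ (s⁻¹ • y)` with `L₀` from `RidgeSol.log` (and the phases of `exists_phase`) works by
homogeneity (`IsPL.homog` for the real and the imaginary part of `β t`, `β t'`). -/
theorem cone_log {x z : Fin 3 → Fin 3 → ℤ} {W : Finset RW} {T : RW → RW → ℤ}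
    {v : RW → RW → Fin 3 → ℤ} (h : RidgeCert x z W T v) {β : RW → (Fin 3 → ℝ) → ℂ} {w : ℝ}
    (hs : RidgeSol x z W T β w) {t t' : RW} (ht : t ∈ W) (ht' : t' ∈ W) (hc : Crossing x t t') :
    ∃ L : (Fin 3 → ℝ) → ℂ,
      ContinuousOn L {y | (∀ i, 0 ≤ y i) ∧ y ≠ 0 ∧ lin x t y = lin x t' y} ∧
      ∀ y : Fin 3 → ℝ, (∀ i, 0 ≤ y i) → y ≠ 0 → lin x t y = lin x t' y →
        Complex.exp (L y) = (lin z t y - lin z t' y : ℝ) + (β t y - β t' y) := by
  obtain ⟨φ, hφ1, hφ2⟩ := exists_phase h ht ht' hc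
  obtain ⟨L₀, hL1, hL2, -⟩ := hs.log t ht t' ht' hc φ hφ1 hφ2
  have hpos : ∀ y : Fin 3 → ℝ, (∀ i, 0 ≤ y i) → y ≠ 0 → 0 < ∑ i, y i := by
    intro y hy h0
    refine lt_of_le_of_ne (sum_nonneg fun i _ => hy i) (Ne.symm fun h1 => h0 ?_)
    funext i
    exact (Finset.sum_eq_zero_iff_of_nonneg (fun i _ => hy i)).1 h1 i (mem_univ i)
  have hseg : ∀ y : Fin 3 → ℝ, (∀ i, 0 ≤ y i) → y ≠ 0 → lin x t y = lin x t' y →
      (∑ i, y i)⁻¹ • y ∈ Seg x t t' := by
    intro y hy h0 hl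
    have hsp := hpos y hy h0
    refine ⟨⟨fun i => ?_, ?_⟩, ?_⟩
    · rw [Pi.smul_apply, smul_eq_mul]
      exact mul_nonneg (inv_nonneg.2 hsp.le) (hy i)
    · simp only [Pi.smul_apply, smul_eq_mul]
      rw [← mul_sum, inv_mul_cancel₀ hsp.ne']
    · rw [map_smul, map_smul, hl]
  have hβ : ∀ (t : RW) (y : Fin 3 → ℝ), (∀ i, 0 ≤ y i) → y ≠ 0 →
      ((∑ i, y i : ℝ) : ℂ) * β t ((∑ i, y i)⁻¹ • y) = β t y := by
    intro t y hy h0
    have hsp := hpos y hy h0
    have h1 := (hs.re_pl t).homog (inv_nonneg.2 hsp.le) hy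
    have h2 := (hs.im_pl t).homog (inv_nonneg.2 hsp.le) hy
    have h3 : β t ((∑ i, y i)⁻¹ • y) = (((∑ i, y i)⁻¹ : ℝ) : ℂ) * β t y := by
      apply Complex.ext
      · rw [Complex.re_ofReal_mul]
        exact h1
      · rw [Complex.im_ofReal_mul]
        exact h2
    rw [h3, ← mul_assoc, ← Complex.ofReal_mul, mul_inv_cancel₀ hsp.ne', Complex.ofReal_one, one_mul]
  refine ⟨fun y => ((Real.log (∑ i, y i) : ℝ) : ℂ) + L₀ ((∑ i, y i)⁻¹ • y), ?_, ?_⟩
  · have hsum : Continuous fun y : Fin 3 → ℝ => ∑ i, y i := by fun_prop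
    refine ContinuousOn.add ?_ ?_
    · refine Complex.continuous_ofReal.comp_continuousOn ?_
      refine ContinuousOn.log hsum.continuousOn fun y hy => (hpos y hy.1 hy.2.1).ne'
    · have h1 : ContinuousOn (fun y : Fin 3 → ℝ => (∑ i, y i)⁻¹ • y)
          {y | (∀ i, 0 ≤ y i) ∧ y ≠ 0 ∧ lin x t y = lin x t' y} :=
        (hsum.continuousOn.inv₀ fun y hy => (hpos y hy.1 hy.2.1).ne').smul continuousOn_id
      exact hL1.comp h1 fun y hy => hseg y hy.1 hy.2.1 hy.2.2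
  · intro y hy h0 hl
    have hsp := hpos y hy h0
    rw [Complex.exp_add, ← Complex.ofReal_exp, Real.exp_log hsp, hL2 _ (hseg y hy h0 hl), mul_add,
      mul_sub, hβ t y hy h0, hβ t' y hy h0]
    congr 1
    rw [map_smul, map_smul, smul_eq_mul, smul_eq_mul, ← mul_sub, ← Complex.ofReal_mul,
      ← mul_assoc, mul_inv_cancel₀ hsp.ne', one_mul]

end Pool.Agent.Lib.MP_fd6ff4_co.R43
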