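import Mathlib
import Pool.Agent.Lib.MP_fd6ff4_co.R43.T1.Near.Base

/-!
# Estimates for two words with exactly one common letter
-/

set_option autoImplicit false

open Finset

namespace Pool.Agent.Lib.MP_fd6ff4_co.R43

/-- A continuous function which vanishes where `m = 0` is small where `m` is small. PROOF.
Compactness: the set `{x ∈ K | c ≤ ‖E x‖}` is compact; if it is nonempty `m` has a positive minimum
on it. -/
theorem small_near {X : Type*} [MetricSpace X] {K : Set X} (hK : IsCompact K) {m : X → ℝ}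
    (hm : ContinuousOn m K) (hm0 : ∀ x ∈ K, 0 ≤ m x) {E : X → ℂ} (hE : ContinuousOn E K)
    (h0 : ∀ x ∈ K, m x = 0 → E x = 0) {c : ℝ} (hc : 0 < c) :
    ∃ ε : ℝ, 0 < ε ∧ ∀ x ∈ K, m x ≤ ε → ‖E x‖ < c := by
  have hA : IsCompact (K ∩ (fun x => ‖E x‖) ⁻¹' Set.Ici c) :=
    hK.of_isClosed_subset
      (hE.norm.preimage_isClosed_of_isClosed hK.isClosed isClosed_Ici) Set.inter_subset_left
  rcases Set.eq_empty_or_nonempty (K ∩ (fun x => ‖E x‖) ⁻¹' Set.Ici c) with h | h
  · refine ⟨1, one_pos, fun x hx _ => ?_⟩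
    by_contra h1
    have h2 : x ∈ K ∩ (fun x => ‖E x‖) ⁻¹' Set.Ici c := ⟨hx, not_lt.1 h1⟩
    rw [h] at h2
    exact h2
  · obtain ⟨x₀, hx₀, hmin⟩ := hA.exists_isMinOn h (hm.mono Set.inter_subset_left)
    have hpos : 0 < m x₀ := by
      refine lt_of_le_of_ne (hm0 x₀ hx₀.1) fun h1 => ?_
      have h2 : c ≤ ‖E x₀‖ := hx₀.2
      rw [h0 x₀ hx₀.1 h1.symm, norm_zero] at h2
      exact absurd hc (not_lt.2 h2)
    refine ⟨m x₀ / 2, half_pos hpos, fun x hx hmx => ?_⟩
    by_contra h1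
    have h2 : m x₀ ≤ m x := hmin ⟨hx, not_lt.1 h1⟩
    linarith

/-- The sum of the `bh j f l - bh j g l`, `j ≠ i`, vanishes on the boundary. PROOF. Let `l k = 0`. By
`bh_zero` only the term of `j = k` can be nonzero, and it is zero by `RidgeSol.one` for the words
`rw3 k f`, `rw3 k g`, which have exactly one common letter (the letter of the colour `i ≠ k`), at the
point `res k l` (`res_seg`). -/
theorem one_bdry {β : Fin 4 → RW → (Fin 3 → ℝ) → ℂ} {w : ℝ} (h : Sols β w) {f g : Word}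
    (hf : f ∈ words) (hg : g ∈ words) {i : Fin 4} (hi : f i = g i) (hd : ∀ j, j ≠ i → f j ≠ g j)
    {l : Fin 4 → ℝ} (hl : l ∈ (mkCollar h).PP f g) {k : Fin 4} (hk : l k = 0) :
    ∑ j ∈ univ.erase i, ((mkCollar h).bh j f l - (mkCollar h).bh j g l) = 0 := by
  refine sum_eq_zero fun j hj => ?_
  have hji : j ≠ i := (mem_erase.1 hj).1
  by_cases hjk : k = j
  · subst hjk
    rw [mk_bh, mk_bh, sub_eq_zero]
    have hs := res_seg h hl hk
    obtain ⟨i₀, hi₀⟩ := Fin.exists_succAbove_eq (Ne.symm hji)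
    refine (h.2 k).one _ (rw3_mem hf) _ (rw3_mem hg) ?_ _ (fun m => res_nonneg hl.1.1 m) hs.2
    rw [card_eq_one]
    refine ⟨i₀, ?_⟩
    ext m
    simp only [mem_filter, mem_univ, true_and, mem_singleton]
    constructor
    · intro hm
      by_contra hne
      have h1 : k.succAbove m ≠ i := by
        rw [← hi₀]
        exact fun h2 => hne (Fin.succAbove_right_injective h2)
      exact hd _ h1 hm
    · rintro rfl
      change f (k.succAbove m) = g (k.succAbove m)
      rw [hi₀]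
      exact hi
  · rw [bh_zero h hl.1 hk hjk, bh_zero h hl.1 hk hjk, sub_zero]

private theorem oneB_third : ∀ i j : Fin 4, ∃ k : Fin 4, k ≠ i ∧ k ≠ j := by
  decide

/-- Near the vertex `i` these terms vanish. PROOF. If `bh j f l ≠ 0` with `j ≠ i`, take a `k ≠ i, j`;
by the support `w * l i ≤ w * ∑ off j ≤ l k ≤ 1 - l i`, so `(1 + w) * l i ≤ 1`. -/
theorem one_vertex {β : Fin 4 → RW → (Fin 3 → ℝ) → ℂ} {w : ℝ} (h : Sols β w) (f : Word)
    {i j : Fin 4} (hj : j ≠ i) {l : Fin 4 → ℝ} (hl : l ∈ DD) (hv : 1 < (1 + w) * l i) :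
    (mkCollar h).bh j f l = 0 := by
  by_contra h0
  obtain ⟨k, hki, hkj⟩ := oneB_third i j
  obtain ⟨m, hm⟩ := Fin.exists_succAbove_eq hkj
  obtain ⟨m', hm'⟩ := Fin.exists_succAbove_eq (Ne.symm hj)
  have h1 : w * ∑ i, res j l i ≤ res j l m := (h.2 j).supp _ _ (fun i => hl.1 _) h0 m
  have h2 : l i ≤ ∑ i, res j l i := by
    have h3 := single_le_sum (f := res j l) (fun i _ => res_nonneg hl.1 i) (mem_univ m')
    have h4 : res j l m' = l i := congrArg l hm'
    rw [h4] at h3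
    exact h3
  have h5 : res j l m = l k := congrArg l hm
  have h6 : l i + l k ≤ 1 := by
    rw [← hl.2, ← add_sum_erase univ l (mem_univ i)]
    have h7 := single_le_sum (f := l) (fun i _ => hl.1 i) (mem_erase.2 ⟨hki, mem_univ k⟩)
    linarith
  have h8 := mul_le_mul_of_nonneg_left h2 h.1.le
  rw [h5] at h1
  nlinarith

end Pool.Agent.Lib.MP_fd6ff4_co.R43
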