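import Mathlib
import Pool.Agent.Lib.MP_fd6ff4_co.R43.T1.Near.Base

/-!
# The logarithm on one face, for two disjoint words
-/

set_option autoImplicit false

open Finset

namespace Pool.Agent.Lib.MP_fd6ff4_co.R43

/-- Two disjoint ridge words which do not cross have an empty segment. PROOF. All the `dd x t t' i`
are nonzero (`cert_inj`) and have the same sign, and `∑ i, dd x t t' i * l i = 0` with `l i ≥ 0` of
sum `1`: impossible. -/
theorem seg_empty {k : Fin 4} {t t' : RW} (hd : ∀ i, t i ≠ t' i) (hc : ¬ Crossing (xk k) t t')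
    {l : Fin 3 → ℝ} (hl : l ∈ Seg (xk k) t t') : False := by
  obtain ⟨⟨h0, h1⟩, h2⟩ := hl
  have hne : ∀ i, dd (xk k) t t' i ≠ 0 := fun i hi =>
    hd i (cert_inj k i (sub_eq_zero.mp hi))
  have hsum : ∑ i, (dd (xk k) t t' i : ℝ) * l i = 0 := by
    rw [lin_apply, lin_apply] at h2
    rw [← sub_eq_zero, ← sum_sub_distrib] at h2
    rw [← h2]
    refine sum_congr rfl fun i _ => ?_
    rw [dd]
    push_cast
    ring
  by_cases hneg : ∃ i, dd (xk k) t t' i < 0
  · obtain ⟨i, hi⟩ := hneg
    have hall : ∀ j, dd (xk k) t t' j ≤ -1 := by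
      intro j
      have h3 : ¬ 0 < dd (xk k) t t' j := fun h4 => hc ⟨hd, i, j, hi, h4⟩
      have h4 := hne j
      omega
    have h3 : ∑ i, (dd (xk k) t t' i : ℝ) * l i ≤ ∑ i, (-1) * l i :=
      sum_le_sum fun j _ => mul_le_mul_of_nonneg_right (by exact_mod_cast hall j) (h0 j)
    rw [hsum, ← mul_sum, h1] at h3
    linarith
  · have hall : ∀ j, 1 ≤ dd (xk k) t t' j := by
      intro j
      have h3 : ¬ dd (xk k) t t' j < 0 := fun h4 => hneg ⟨j, h4⟩
      have h4 := hne j
      omega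
    have h3 : ∑ i, (1 : ℝ) * l i ≤ ∑ i, (dd (xk k) t t' i : ℝ) * l i :=
      sum_le_sum fun j _ => mul_le_mul_of_nonneg_right (by exact_mod_cast hall j) (h0 j)
    rw [hsum, ← mul_sum, h1] at h3
    linarith

/-- The logarithm on one face. PROOF. If the restricted words cross, compose the logarithm of
`RidgeSol.log` with the phases `φ c = phi f g (k.succAbove c) k` (`cert_phi`, `cert_phi_even`) with
`res k`; use `res_seg`, `Y0_face`; a `j ≠ k` is `k.succAbove c`. Otherwise the set is empty by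
`seg_empty`. -/
theorem face_log {β : Fin 4 → RW → (Fin 3 → ℝ) → ℂ} {w : ℝ} (h : Sols β w) {f g : Word}
    (hf : f ∈ words) (hg : g ∈ words) (hd : ∀ i, f i ≠ g i) (k : Fin 4) :
    ∃ L : (Fin 4 → ℝ) → ℂ, ContinuousOn L {l | l ∈ (mkCollar h).PP f g ∧ l k = 0} ∧
      (∀ l ∈ (mkCollar h).PP f g, l k = 0 →
        Complex.exp (L l) = (mkCollar h).Y0 f l - (mkCollar h).Y0 g l) ∧
      ∀ l ∈ (mkCollar h).PP f g, l k = 0 → ∀ j, j ≠ k → l j = 0 →
        L l = Real.log |∑ i, ((zz i (f i) : ℝ) - zz i (g i)) * l i| +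
          Real.pi * phi f g j k * Complex.I := by
  by_cases hcr : Crossing (xk k) (rw3 k f) (rw3 k g)
  · obtain ⟨L, hL1, hL2, hL3⟩ := (h.2 k).log _ (rw3_mem hf) _ (rw3_mem hg) hcr
      (fun c => phi f g (k.succAbove c) k) (cert_phi_even f hf g hg hd k)
      (cert_phi f hf g hg hd k)
    refine ⟨fun l => L (res k l), ?_, ?_, ?_⟩
    · exact hL1.comp (continuous_res k).continuousOn fun l hl => res_seg h hl.1 hl.2
    · intro l hl hk
      beta_reduce
      rw [hL2 _ (res_seg h hl hk), Y0_face h hl.1 hk, Y0_face h hl.1 hk]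
      push_cast
      ring
    · intro l hl hk j hj hlj
      obtain ⟨c, rfl⟩ := Fin.exists_succAbove_eq hj
      beta_reduce
      rw [hL3 _ (res_seg h hl hk) c hlj]
      have h1 : lin (zk k) (rw3 k f) (res k l) - lin (zk k) (rw3 k g) (res k l) =
          ∑ i, ((zz i (f i) : ℝ) - zz i (g i)) * l i := by
        rw [lin_apply, lin_apply, Fin.sum_univ_succAbove _ k, hk, mul_zero, zero_add,
          ← sum_sub_distrib]
        exact sum_congr rfl fun i _ => (sub_mul _ _ _).symm
      rw [h1]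
  · have hemp : ∀ l ∈ (mkCollar h).PP f g, l k = 0 → False := fun l hl hk =>
      seg_empty (fun i => hd _) hcr (res_seg h hl hk)
    refine ⟨fun _ => 0, continuousOn_const, fun l hl hk => (hemp l hl hk).elim,
      fun l hl hk => (hemp l hl hk).elim⟩

end Pool.Agent.Lib.MP_fd6ff4_co.R43
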