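import Mathlib
import Pool.Agent.Lib.MP_fd6ff4_co.R43.T1.Near.OneA
import Pool.Agent.Lib.MP_fd6ff4_co.R43.T1.Near.OneB
import Pool.Agent.Lib.MP_fd6ff4_co.R43.T1.Near.ZeroA

/-!
# The near-boundary claim for two words with exactly one common letter
-/

set_option autoImplicit false

open Finset

namespace Pool.Agent.Lib.MP_fd6ff4_co.R43

/-- PROOF. Let `t = rw3 i f`, `t' = rw3 i g`, they are disjoint. If they do not cross, then
`∑ j ≠ i, δ j * l j = 0` with all `δ j` nonzero of the same sign, so `l j = 0` for `j ≠ i` and the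
words agree on the support of `l`: `nearPair_of_agree`. If they cross let
`D l = lin (zk i) t (res i l) - lin (zk i) t' (res i l) + (β i t (res i l) - β i t' (res i l))` and
`L₀` as in `cone_log` (for `ridgeCert i`); `L₀ ∘ res i` is a logarithm of `D` on the set of the
`l ∈ PP f g` which do not agree (then `res i l ≠ 0`). The difference of `Y0 f l - Y0 g l` and `D l` is
`E l = ∑ j ∈ univ.erase i, (bh j f l - bh j g l)` (`zf_res`; the `i`-th letters agree). On the compact
set `K = {l ∈ PP f g | (1 + w) * l i ≤ 1}` the norm of `D` has a positive lower bound `c`, and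
`‖E l‖ < c` if `minc l ≤ ε` (`small_near`, `one_bdry`); off `K` we have `E l = 0` (`one_vertex`). Now
`exists_log_of_close`. -/
theorem near_one {β : Fin 4 → RW → (Fin 3 → ℝ) → ℂ} {w : ℝ} (h : Sols β w) {f g : Word}
    (hf : f ∈ words) (hg : g ∈ words) {i : Fin 4} (hi : f i = g i)
    (hd : ∀ j, j ≠ i → f j ≠ g j) : ∃ ε : ℝ, 0 < ε ∧ NearPair (mkCollar h) f g ε := by
  have htd : ∀ c, rw3 i f c ≠ rw3 i g c := fun c => hd _ (Fin.succAbove_ne i c)
  have hline : ∀ l ∈ (mkCollar h).PP f g,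
      lin (xk i) (rw3 i f) (res i l) = lin (xk i) (rw3 i g) (res i l) := by
    intro l hl
    have h1 := hl.2
    rw [xf_res h i, xf_res h i, hi] at h1
    exact add_left_cancel h1
  have hres : ∀ l : Fin 4 → ℝ, ¬ Agree f g l → res i l ≠ 0 := by
    intro l hn h0
    apply hn
    intro j hj
    by_cases hji : j = i
    · rw [hji]
      exact hi
    · exfalso
      obtain ⟨c, hc⟩ := Fin.exists_succAbove_eq hji
      apply hj
      rw [← hc]
      exact congrFun h0 c
  by_cases hc : Crossing (xk i) (rw3 i f) (rw3 i g)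
  swap
  · refine nearPair_of_agree fun l hl => ?_
    by_contra hn
    have h0 := hres l hn
    have hnn : ∀ c, 0 ≤ res i l c := fun c => hl.1.1 _
    have hs : 0 < ∑ c, res i l c := by
      refine lt_of_le_of_ne (sum_nonneg fun c _ => hnn c) fun hs => h0 ?_
      funext c
      exact (Finset.sum_eq_zero_iff_of_nonneg (fun c _ => hnn c)).1 hs.symm c (mem_univ c)
    refine seg_empty (k := i) htd hc (l := (∑ c, res i l c)⁻¹ • res i l) ⟨⟨fun c => ?_, ?_⟩, ?_⟩
    · exact mul_nonneg (inv_nonneg.2 hs.le) (hnn c)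
    · simp only [Pi.smul_apply, smul_eq_mul]
      rw [← Finset.mul_sum, inv_mul_cancel₀ hs.ne']
    · rw [map_smul, map_smul, hline l hl]
  obtain ⟨L₀, hL₀, hexp₀⟩ := cone_log (ridgeCert i) (h.2 i) (rw3_mem hf) (rw3_mem hg) hc
  -- the two functions
  set D : (Fin 4 → ℝ) → ℂ := fun l =>
    ((lin (zk i) (rw3 i f) (res i l) - lin (zk i) (rw3 i g) (res i l) : ℝ) : ℂ) +
      ((mkCollar h).bh i f l - (mkCollar h).bh i g l) with hD
  set D' : (Fin 4 → ℝ) → ℂ := fun l => (mkCollar h).Y0 f l - (mkCollar h).Y0 g l with hD'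
  set E : (Fin 4 → ℝ) → ℂ := fun l =>
    ∑ j ∈ univ.erase i, ((mkCollar h).bh j f l - (mkCollar h).bh j g l) with hE
  have hDE : ∀ l, D' l - D l = E l := by
    intro l
    have h1 : ∑ k, (mkCollar h).bh k f l - ∑ k, (mkCollar h).bh k g l =
        ((mkCollar h).bh i f l - (mkCollar h).bh i g l) + E l := by
      rw [← Finset.sum_sub_distrib, ← Finset.add_sum_erase univ _ (mem_univ i)]
    simp only [hD, hD', Collar.Y0]
    rw [zf_res h i f, zf_res h i g, hi]
    push_cast
    linear_combination h1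
  have hbc : ∀ j u, ContinuousOn ((mkCollar h).bh j u) {l | ∀ i, 0 ≤ l i} := fun j u =>
    cont_of_re_im ((mkCollar h).re_pl j u).continuousOn ((mkCollar h).im_pl j u).continuousOn
  have hDc : ContinuousOn D {l | ∀ i, 0 ≤ l i} := by
    refine ContinuousOn.add ?_ ((hbc i f).sub (hbc i g))
    refine (Complex.continuous_ofReal.comp ?_).continuousOn
    exact ((LinearMap.continuous_of_finiteDimensional _).comp (continuous_res i)).sub
      ((LinearMap.continuous_of_finiteDimensional _).comp (continuous_res i))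
  have hDc' : ContinuousOn D' {l | ∀ i, 0 ≤ l i} :=
    ((mkCollar h).continuousOn_Y0 f).sub ((mkCollar h).continuousOn_Y0 g)
  have hEc : ContinuousOn E {l | ∀ i, 0 ≤ l i} :=
    continuousOn_finsetSum _ fun j _ => (hbc j f).sub (hbc j g)
  have hexp : ∀ l ∈ (mkCollar h).PP f g, res i l ≠ 0 → Complex.exp (L₀ (res i l)) = D l := by
    intro l hl h0
    rw [hexp₀ (res i l) (fun c => hl.1.1 _) h0 (hline l hl)]
    rfl
  -- the compact set
  set K : Set (Fin 4 → ℝ) := (mkCollar h).PP f g ∩ {l | (1 + w) * l i ≤ 1} with hK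
  have hKc : IsCompact K := (isCompact_PP h f g).inter_right
    (isClosed_le (continuous_const.mul (continuous_apply i)) continuous_const)
  have hKn : ∀ l ∈ K, ∀ j, 0 ≤ l j := fun l hl => hl.1.1.1
  have hDK : ∀ l ∈ K, D l ≠ 0 := by
    intro l hl
    rw [← hexp l hl.1 fun h0 => ?_]
    · exact Complex.exp_ne_zero _
    · have h1 := sum_res i l
      rw [hl.1.1.2, h0] at h1
      have h2 : (1 + w) * l i ≤ 1 := hl.2
      have h3 : l i = 1 := by
        simp only [Pi.zero_apply, Finset.sum_const_zero, add_zero] at h1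
        exact h1.symm
      rw [h3] at h2
      linarith [h.1]
  obtain ⟨c, hc0, hcD⟩ : ∃ c : ℝ, 0 < c ∧ ∀ l ∈ K, c ≤ ‖D l‖ := by
    rcases K.eq_empty_or_nonempty with h1 | h1
    · exact ⟨1, one_pos, fun l hl => absurd hl (by rw [h1]; exact Set.notMem_empty l)⟩
    · obtain ⟨l₀, hl₀, hmin⟩ := hKc.exists_isMinOn h1 (hDc.mono hKn).norm
      exact ⟨‖D l₀‖, norm_pos_iff.2 (hDK l₀ hl₀), fun l hl => hmin hl⟩
  obtain ⟨ε, hε, hsm⟩ := small_near hKc continuous_minc.continuousOn
    (fun l hl => minc_nonneg (hKn l hl)) (hEc.mono hKn) (fun l hl h0 => by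
      obtain ⟨k, hk⟩ := (minc_zero (hKn l hl)).1 h0
      exact one_bdry h hf hg hi hd hl.1 hk) hc0
  refine ⟨ε, hε, ?_⟩
  have hlt : ∀ l ∈ {l | l ∈ (mkCollar h).PP f g ∧ (∃ i, l i ≤ ε) ∧ ¬ Agree f g l},
      ‖D' l - D l‖ < ‖D l‖ := by
    intro l hl
    rw [hDE]
    by_cases hv : (1 + w) * l i ≤ 1
    · have hlK : l ∈ K := ⟨hl.1, hv⟩
      exact (hsm l hlK (minc_le.2 hl.2.1)).trans_le (hcD l hlK)
    · have h3 : E l = 0 := by
        refine Finset.sum_eq_zero fun j hj => ?_
        rw [one_vertex h f (ne_of_mem_erase hj) hl.1.1 (not_le.1 hv),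
          one_vertex h g (ne_of_mem_erase hj) hl.1.1 (not_le.1 hv), sub_zero]
      rw [h3, norm_zero, ← hexp l hl.1 (hres l hl.2.2)]
      exact norm_pos_iff.2 (Complex.exp_ne_zero _)
  obtain ⟨L', h1, h2, -⟩ := exists_log_of_close
    (Z := {l | l ∈ (mkCollar h).PP f g ∧ (∃ i, l i ≤ ε) ∧ ¬ Agree f g l}) (D := D) (D' := D')
    (L := fun l => L₀ (res i l)) (hDc.mono fun l hl => hl.1.1.1) (hDc'.mono fun l hl => hl.1.1.1)
    (hL₀.comp (continuous_res i).continuousOn fun l hl =>
      ⟨fun c => hl.1.1.1 _, hres l hl.2.2, hline l hl.1⟩)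
    (fun l hl => hexp l hl.1 (hres l hl.2.2)) hlt
  exact ⟨L', h1, fun l hl hi hn => h2 l ⟨hl, hi, hn⟩⟩

end Pool.Agent.Lib.MP_fd6ff4_co.R43
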