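import Mathlib
import Pool.Agent.Lib.MP_fd6ff4_co.R43.T1.Near.Base

/-!
# Two words with two or three common letters, first part
-/

set_option autoImplicit false

open Finset

namespace Pool.Agent.Lib.MP_fd6ff4_co.R43

private theorem xx_inj' (i : Fin 4) : Function.Injective (xx i) := by
  have h1 : ∀ i, Function.Injective (xx i) := by decide +kernel
  exact h1 i

/-- PROOF. On `PP f g` we have `δ i * l i = 0` with `δ i ≠ 0`, so `l i = 0` and the words agree on the
support: `nearPair_of_agree`. -/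
theorem near_three {β : Fin 4 → RW → (Fin 3 → ℝ) → ℂ} {w : ℝ} (h : Sols β w) {f g : Word}
    {i : Fin 4} (hi : f i ≠ g i) (hd : ∀ j, j ≠ i → f j = g j) :
    ∃ ε : ℝ, 0 < ε ∧ NearPair (mkCollar h) f g ε := by
  refine nearPair_of_agree fun l hl => ?_
  have h1 := xf_sub h f g l
  rw [hl.2, sub_self, Finset.sum_eq_single i
    (fun j _ hj => by rw [hd j hj, sub_self, zero_mul])
    (fun h2 => absurd (mem_univ i) h2)] at h1
  have h2 : ((xx i (f i) : ℝ) - xx i (g i)) ≠ 0 := by
    intro h3
    have h4 : (xx i (f i) : ℝ) = xx i (g i) := sub_eq_zero.1 h3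
    exact hi (xx_inj' i (by exact_mod_cast h4))
  have h3 : l i = 0 := (mul_eq_zero.1 h1.symm).resolve_left h2
  intro j hj
  by_cases hji : j = i
  · rw [hji] at hj
    exact absurd h3 hj
  · exact hd j hji

/-- The terms of the common colours vanish. PROOF. `RidgeSol.one` for `rw3 i f`, `rw3 i g`, which have
exactly one common letter (of the colour `j`); `xf_res h i` and `f i = g i` give the line. -/
theorem two_common {β : Fin 4 → RW → (Fin 3 → ℝ) → ℂ} {w : ℝ} (h : Sols β w) {f g : Word}
    (hf : f ∈ words) (hg : g ∈ words) {i j : Fin 4} (hij : i ≠ j) (hi : f i = g i) (hj : f j = g j)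
    (hd : ∀ m, m ≠ i → m ≠ j → f m ≠ g m) {l : Fin 4 → ℝ} (hl : l ∈ (mkCollar h).PP f g) :
    (mkCollar h).bh i f l = (mkCollar h).bh i g l := by
  rw [mk_bh, mk_bh]
  refine (h.2 i).one _ (mem_image_of_mem _ hf) _ (mem_image_of_mem _ hg) ?_ _
    (fun c => hl.1.1 _) ?_
  · obtain ⟨c, hc⟩ := Fin.exists_succAbove_eq hij.symm
    rw [card_eq_one]
    refine ⟨c, ?_⟩
    ext c'
    simp only [mem_filter, mem_univ, true_and, mem_singleton]
    constructor
    · intro h1
      by_contra h2
      have h3 : i.succAbove c' ≠ j := by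
        rw [← hc]
        exact fun h4 => h2 (Fin.succAbove_right_injective h4)
      exact hd _ (Fin.succAbove_ne i c') h3 h1
    · rintro rfl
      show f (i.succAbove c') = g (i.succAbove c')
      rw [hc, hj]
  · have h1 := hl.2
    rw [xf_res h i, xf_res h i, hi] at h1
    exact add_left_cancel h1

/-- The terms of the other colours vanish near the boundary. PROOF. If `bh a f l ≠ 0`, then by the
support all the `l m`, `m ≠ a`, are at least `w * (1 - l a)` and `1 - l a ≥ l b = r * l a` where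
`r = - δa / δb > 0`. From `r * l a = l b ≥ w * (1 - l a)` we get `l a ≥ w / (r + w)`, and then
`l m ≥ w * (1 - l a) ≥ w * r * l a ≥ w * r * w / (r + w)` for `m ≠ a`. -/
theorem two_other {w : ℝ} (hw : 0 < w) {r : ℝ} (hr : 0 < r) : ∃ ε : ℝ, 0 < ε ∧
    ∀ (β : Fin 4 → RW → (Fin 3 → ℝ) → ℂ) (h : Sols β w) (f : Word) (l : Fin 4 → ℝ) (a b : Fin 4),
      a ≠ b → l ∈ DD → l b = r * l a → (∃ m, l m ≤ ε) → (mkCollar h).bh a f l = 0 := by
  have hrw : 0 < r + w := add_pos hr hw
  have h1 : 0 < w / (r + w) := div_pos hw hrw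
  have h2 : 0 < w * (r * (w / (r + w))) := mul_pos hw (mul_pos hr h1)
  refine ⟨min (w / (r + w)) (w * (r * (w / (r + w)))) / 2, by positivity, ?_⟩
  rintro β h f l a b hab hl hb ⟨m, hm⟩
  by_contra h0
  have hsupp := (mkCollar h).supp a f l hl.1 h0
  have hs : ∑ i ∈ univ.erase a, l i = 1 - l a := by
    have h3 := hl.2
    rw [← add_sum_erase univ l (mem_univ a)] at h3
    linarith
  have hge : ∀ m, m ≠ a → w * (1 - l a) ≤ l m := by
    intro m hm
    have h3 := hsupp m hm
    rw [hs] at h3
    exact h3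
  have hb' : l b ≤ 1 - l a := by
    rw [← hs]
    exact single_le_sum (f := l) (fun i _ => hl.1 i) (mem_erase.2 ⟨hab.symm, mem_univ b⟩)
  have hla : w / (r + w) ≤ l a := by
    have h3 := hge b hab.symm
    rw [hb] at h3
    rw [div_le_iff₀ hrw]
    linarith
  have hmin1 : min (w / (r + w)) (w * (r * (w / (r + w)))) ≤ w / (r + w) := min_le_left _ _
  have hmin2 : min (w / (r + w)) (w * (r * (w / (r + w)))) ≤ w * (r * (w / (r + w))) :=
    min_le_right _ _
  have hmin0 : 0 < min (w / (r + w)) (w * (r * (w / (r + w)))) := lt_min h1 h2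
  by_cases hma : m = a
  · rw [hma] at hm
    linarith
  · have h3 := hge m hma
    have h4 : w * (r * (w / (r + w))) ≤ w * (1 - l a) := by
      refine mul_le_mul_of_nonneg_left ?_ hw.le
      calc r * (w / (r + w)) ≤ r * l a := mul_le_mul_of_nonneg_left hla hr.le
        _ = l b := hb.symm
        _ ≤ 1 - l a := hb'
    linarith

end Pool.Agent.Lib.MP_fd6ff4_co.R43
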