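import Mathlib
import Pool.Agent.Lib.MP_fd6ff4_co.R43.T1.Near.TwoA

/-!
# The near-boundary claim for two words with two common letters
-/

set_option autoImplicit false

open Finset

namespace Pool.Agent.Lib.MP_fd6ff4_co.R43

theorem two_others (i j : Fin 4) (hij : i ≠ j) : ∃ a b : Fin 4, a ≠ b ∧ a ≠ i ∧ a ≠ j ∧ b ≠ i ∧
    b ≠ j ∧ (univ : Finset (Fin 4)) = {i, j, a, b} := by
  revert i j
  decide

theorem xx_inj (i : Fin 4) : Function.Injective (xx i) := by
  revert i
  decide +kernel

/-- (K1) for the words `f`, `g` and the colours `a`, `b` -/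
theorem two_indep {f g : Word} (hf : f ∈ words) (hg : g ∈ words) {i a b : Fin 4} (hab : a ≠ b)
    (ha : a ≠ i) (hb : b ≠ i) (h1 : xx a (f a) - xx a (g a) < 0)
    (h2 : 0 < xx b (f b) - xx b (g b)) :
    (xx a (f a) - xx a (g a)) * (zz b (f b) - zz b (g b)) -
      (xx b (f b) - xx b (g b)) * (zz a (f a) - zz a (g a)) ≠ 0 := by
  obtain ⟨a', rfl⟩ := Fin.exists_succAbove_eq ha
  obtain ⟨b', rfl⟩ := Fin.exists_succAbove_eq hb
  exact (ridgeCert i).indep (rw3 i f) (rw3_mem hf) (rw3 i g) (rw3_mem hg) a' b'
    (fun h => hab (by rw [h])) h1 h2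

/-- PROOF. Let `a`, `b` be the two other colours, `δ m = xx m (f m) - xx m (g m)` and
`ν m = zz m (f m) - zz m (g m)`. `δ a, δ b ≠ 0`. On `PP f g` we have `δ a * l a + δ b * l b = 0`. If
`δ a` and `δ b` have the same sign, then `l a = l b = 0` and the words agree: `nearPair_of_agree`.
Otherwise `l b = r * l a` with `r = - δ a / δ b > 0`, and `l a > 0` if the words do not agree. By
`two_common` (for `i, j` and for `j, i`) and `two_other` (for `a, b, r` and for `b, a, r⁻¹`) there is
`ε > 0` such that `Y0 f l - Y0 g l = zf f l - zf g l = ν a * l a + ν b * l b = l a * c` with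
`c = ν a + r * ν b` if some `l m ≤ ε`. `c ≠ 0` by (K1): `(ridgeCert i).indep` for the words `rw3 i f`,
`rw3 i g` and the two indices with `i.succAbove _ = a`, `b`. The logarithm is
`Real.log (l a) + Complex.log c`. -/
theorem near_two {β : Fin 4 → RW → (Fin 3 → ℝ) → ℂ} {w : ℝ} (h : Sols β w) {f g : Word}
    (hf : f ∈ words) (hg : g ∈ words) {i j : Fin 4} (hij : i ≠ j) (hi : f i = g i) (hj : f j = g j)
    (hd : ∀ m, m ≠ i → m ≠ j → f m ≠ g m) : ∃ ε : ℝ, 0 < ε ∧ NearPair (mkCollar h) f g ε := by
  obtain ⟨a, b, hab, hai, haj, hbi, hbj, huniv⟩ := two_others i j hij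
  have hsum : ∀ (R : Type) [AddCommGroup R] (F : Fin 4 → R), ∑ m, F m = F i + (F j + (F a + F b)) := by
    intro R _ F
    rw [huniv, sum_insert, sum_insert, sum_pair hab]
    · simp [haj.symm, hbj.symm]
    · simp [hij, hai.symm, hbi.symm]
  have hcase : ∀ m : Fin 4, m = i ∨ m = j ∨ m = a ∨ m = b := by
    intro m
    have : m ∈ ({i, j, a, b} : Finset (Fin 4)) := huniv ▸ mem_univ m
    simpa using this
  have hfa := hd a hai haj
  have hfb := hd b hbi hbj
  -- the differences
  have hδa : xx a (f a) - xx a (g a) ≠ 0 := sub_ne_zero.2 fun h' => hfa (xx_inj a h')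
  have hδb : xx b (f b) - xx b (g b) ≠ 0 := sub_ne_zero.2 fun h' => hfb (xx_inj b h')
  set da : ℝ := (xx a (f a) : ℝ) - xx a (g a) with hda
  set db : ℝ := (xx b (f b) : ℝ) - xx b (g b) with hdb
  have hda' : da = ((xx a (f a) - xx a (g a) : ℤ) : ℝ) := by rw [hda]; push_cast; ring
  have hdb' : db = ((xx b (f b) - xx b (g b) : ℤ) : ℝ) := by rw [hdb]; push_cast; ring
  have hline : ∀ l ∈ (mkCollar h).PP f g, da * l a + db * l b = 0 := by
    intro l hl
    have h1 := xf_sub h f g l
    rw [hl.2, sub_self, hsum, hi, hj, sub_self, sub_self, zero_mul, zero_mul, zero_add,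
      zero_add] at h1
    exact h1.symm
  have hagree : ∀ l : Fin 4 → ℝ, l a = 0 → l b = 0 → Agree f g l := by
    intro l h1 h2 m hm
    rcases hcase m with rfl | rfl | rfl | rfl
    · exact hi
    · exact hj
    · exact absurd h1 hm
    · exact absurd h2 hm
  rcases lt_or_gt_of_ne (mul_ne_zero (by rw [hda']; exact_mod_cast hδa)
    (by rw [hdb']; exact_mod_cast hδb) : da * db ≠ 0) with hneg | hpos
  swap
  · -- same sign
    refine nearPair_of_agree fun l hl => ?_
    have h1 := hline l hl
    have ha0 := hl.1.1 a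
    have hb0 := hl.1.1 b
    have hda0 : 0 < da ^ 2 := by
      have : da ≠ 0 := by rintro h0; rw [h0, zero_mul] at hpos; exact lt_irrefl _ hpos
      positivity
    have hdb0 : 0 < db ^ 2 := by
      have : db ≠ 0 := by rintro h0; rw [h0, mul_zero] at hpos; exact lt_irrefl _ hpos
      positivity
    have h2 : da ^ 2 * l a + da * db * l b = 0 := by linear_combination da * h1
    have h3 : da * db * l a + db ^ 2 * l b = 0 := by linear_combination db * h1
    have h4 := mul_nonneg hda0.le ha0
    have h5 := mul_nonneg hpos.le hb0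
    have h6 := mul_nonneg hpos.le ha0
    have h7 := mul_nonneg hdb0.le hb0
    refine hagree l ?_ ?_
    · have h8 : da ^ 2 * l a = 0 := by linarith
      rcases mul_eq_zero.1 h8 with h9 | h9
      · exact absurd h9 hda0.ne'
      · exact h9
    · have h8 : db ^ 2 * l b = 0 := by linarith
      rcases mul_eq_zero.1 h8 with h9 | h9
      · exact absurd h9 hdb0.ne'
      · exact h9
  · -- different signs
    have hdb0 : db ≠ 0 := by rintro h0; rw [h0, mul_zero] at hneg; exact lt_irrefl _ hneg
    have hda0 : da ≠ 0 := by rintro h0; rw [h0, zero_mul] at hneg; exact lt_irrefl _ hneg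
    set r : ℝ := -da / db with hr
    have hrpos : 0 < r := by
      have h1 : r = -(da * db) / db ^ 2 := by
        rw [hr]
        field_simp
      rw [h1]
      have : 0 < db ^ 2 := by positivity
      have h2 : 0 < -(da * db) := by linarith
      positivity
    have hrdb : r * db = -da := by
      rw [hr, div_mul_cancel₀ _ hdb0]
    have hlb : ∀ l ∈ (mkCollar h).PP f g, l b = r * l a := by
      intro l hl
      have h1 := hline l hl
      have h2 : db * l b = db * (r * l a) := by linear_combination h1 - l a * hrdb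
      exact mul_left_cancel₀ hdb0 h2
    set va : ℝ := (zz a (f a) : ℝ) - zz a (g a) with hva
    set vb : ℝ := (zz b (f b) : ℝ) - zz b (g b) with hvb
    set c : ℝ := va + r * vb with hc
    have hc0 : c ≠ 0 := by
      intro h0
      have h1 : db * va - da * vb = 0 := by
        have : db * c = 0 := by rw [h0, mul_zero]
        rw [hc] at this
        linear_combination this - vb * hrdb
      have h2 : (xx b (f b) - xx b (g b)) * (zz a (f a) - zz a (g a)) -
          (xx a (f a) - xx a (g a)) * (zz b (f b) - zz b (g b)) = 0 := by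
        have h3 : (((xx b (f b) - xx b (g b)) * (zz a (f a) - zz a (g a)) -
          (xx a (f a) - xx a (g a)) * (zz b (f b) - zz b (g b)) : ℤ) : ℝ) = 0 := by
          rw [hdb, hva, hda, hvb] at h1
          push_cast
          exact h1
        exact_mod_cast h3
      have hneg' : (xx a (f a) - xx a (g a)) * (xx b (f b) - xx b (g b)) < 0 := by
        rw [hda', hdb'] at hneg
        exact_mod_cast hneg
      rcases lt_or_gt_of_ne hδa with h4 | h4
      · have h5 : 0 < xx b (f b) - xx b (g b) := by
          by_contra h6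
          exact absurd (mul_nonneg_of_nonpos_of_nonpos h4.le (not_lt.1 h6)) (not_le.2 hneg')
        exact two_indep hf hg hab hai hbi h4 h5 (by linarith)
      · have h5 : xx b (f b) - xx b (g b) < 0 := by
          by_contra h6
          exact absurd (mul_nonneg h4.le (not_lt.1 h6)) (not_le.2 hneg')
        exact two_indep hf hg hab.symm hbi hai h5 h4 h2
    obtain ⟨ε₁, hε₁, ho₁⟩ := two_other h.1 hrpos
    obtain ⟨ε₂, hε₂, ho₂⟩ := two_other h.1 (inv_pos.2 hrpos)
    have hY : ∀ l ∈ (mkCollar h).PP f g, (∃ m, l m ≤ min ε₁ ε₂) →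
        (mkCollar h).Y0 f l - (mkCollar h).Y0 g l = ((l a * c : ℝ) : ℂ) := by
      intro l hl hm
      obtain ⟨m, hm⟩ := hm
      have hm1 : ∃ m, l m ≤ ε₁ := ⟨m, hm.trans (min_le_left _ _)⟩
      have hm2 : ∃ m, l m ≤ ε₂ := ⟨m, hm.trans (min_le_right _ _)⟩
      have hla : l a = r⁻¹ * l b := by rw [hlb l hl, ← mul_assoc, inv_mul_cancel₀ hrpos.ne', one_mul]
      have h1 := two_common h hf hg hij hi hj hd hl
      have h2 := two_common h hf hg hij.symm hj hi (fun m h1 h2 => hd m h2 h1) hl
      have h3 := ho₁ β h f l a b hab hl.1 (hlb l hl) hm1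
      have h4 := ho₁ β h g l a b hab hl.1 (hlb l hl) hm1
      have h5 := ho₂ β h f l b a hab.symm hl.1 hla hm2
      have h6 := ho₂ β h g l b a hab.symm hl.1 hla hm2
      have h7 := zf_sub h f g l
      rw [hsum, hi, hj, sub_self, sub_self, zero_mul, zero_mul, zero_add, zero_add] at h7
      have h8 : ∑ k, (mkCollar h).bh k f l = ∑ k, (mkCollar h).bh k g l := by
        rw [hsum, hsum, h1, h2, h3, h4, h5, h6]
      rw [Collar.Y0, Collar.Y0, h8, add_sub_add_right_eq_sub, h7, hlb l hl]
      congr 1
      rw [hc]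
      ring
    have hpos : ∀ l ∈ (mkCollar h).PP f g, ¬ Agree f g l → 0 < l a := by
      intro l hl hn
      refine lt_of_le_of_ne (hl.1.1 a) fun h0 => hn (hagree l h0.symm ?_)
      rw [hlb l hl, ← h0, mul_zero]
    refine ⟨min ε₁ ε₂, lt_min hε₁ hε₂, fun l => (Real.log (l a) : ℂ) + Complex.log (c : ℂ), ?_, ?_⟩
    · refine ContinuousOn.add ?_ continuousOn_const
      refine Complex.continuous_ofReal.comp_continuousOn ?_
      refine ContinuousOn.log (continuous_apply a).continuousOn fun l hl => ?_
      exact (hpos l hl.1 hl.2.2).ne'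
    · intro l hl hm hn
      have hla := hpos l hl hn
      rw [hY l hl hm, Complex.exp_add, Complex.exp_log (by exact_mod_cast hc0), ← Complex.ofReal_exp,
        Real.exp_log hla]
      push_cast
      rfl

end Pool.Agent.Lib.MP_fd6ff4_co.R43
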