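import Mathlib
import Pool.Agent.Lib.MP_fd6ff4_co.R43.T1.Near.ZeroA

/-!
# The near-boundary claim for two disjoint words
-/

set_option autoImplicit false

open Finset

namespace Pool.Agent.Lib.MP_fd6ff4_co.R43

/-- Gluing on finitely many closed sets. PROOF. `L x = F k x` for some chosen `k` with `x ∈ A k`;
`LocallyFinite.continuousOn_iUnion`. -/
theorem glue_closed {κ X : Type*} [Finite κ] [Nonempty κ] [TopologicalSpace X] {F : κ → X → ℂ}
    {A : κ → Set X} (hA : ∀ k, IsClosed (A k)) (hF : ∀ k, ContinuousOn (F k) (A k))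
    (hc : ∀ j k, ∀ x ∈ A j, x ∈ A k → F j x = F k x) :
    ∃ L : X → ℂ, ContinuousOn L (⋃ k, A k) ∧ ∀ k, ∀ x ∈ A k, L x = F k x := by
  classical
  let L : X → ℂ := fun x => if h : ∃ k, x ∈ A k then F h.choose x else 0
  have hL : ∀ k, ∀ x ∈ A k, L x = F k x := by
    intro k x hx
    have h : ∃ k, x ∈ A k := ⟨k, hx⟩
    have h1 : L x = F h.choose x := dif_pos h
    rw [h1]
    exact hc _ _ x h.choose_spec hx
  refine ⟨L, ?_, hL⟩
  exact (locallyFinite_of_finite A).continuousOn_iUnion hA fun k => (hF k).congr (hL k)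

/-- PROOF. Choose the `L k` of `face_log` and glue them on the closed sets
`A k = {l | l ∈ PP f g ∧ l k = 0}` (`glue_closed`): for `j ≠ k` and a point of both sets the two
values are the same since `phi f g j k = phi f g k j` (`phi_comm`). Then `exists_log_near` with
`Z = PP f g` (`isCompact_PP`), `m = minc`, `D l = Y0 f l - Y0 g l` (`Collar.continuousOn_Y0`). -/
theorem near_zero {β : Fin 4 → RW → (Fin 3 → ℝ) → ℂ} {w : ℝ} (h : Sols β w) {f g : Word}
    (hf : f ∈ words) (hg : g ∈ words) (hd : ∀ i, f i ≠ g i) :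
    ∃ ε : ℝ, 0 < ε ∧ NearPair (mkCollar h) f g ε := by
  choose L hLc hLe hLp using fun k => face_log h hf hg hd k
  have hcl : ∀ k : Fin 4, IsClosed {l : Fin 4 → ℝ | l ∈ (mkCollar h).PP f g ∧ l k = 0} := by
    intro k
    exact (isCompact_PP h f g).isClosed.inter (isClosed_eq (continuous_apply k) continuous_const)
  obtain ⟨M, hMc, hM⟩ := glue_closed (F := L)
    (A := fun k : Fin 4 => {l : Fin 4 → ℝ | l ∈ (mkCollar h).PP f g ∧ l k = 0}) hcl hLc (by
      rintro j k x ⟨hx1, hxj⟩ ⟨-, hxk⟩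
      by_cases hjk : j = k
      · rw [hjk]
      · rw [hLp j x hx1 hxj k (Ne.symm hjk) hxk, hLp k x hx1 hxk j hjk hxj, phi_comm f g k j])
  have hsub : {z : Fin 4 → ℝ | z ∈ (mkCollar h).PP f g ∧ minc z = 0} ⊆
      ⋃ k : Fin 4, {l : Fin 4 → ℝ | l ∈ (mkCollar h).PP f g ∧ l k = 0} := by
    rintro z ⟨hz, hz0⟩
    obtain ⟨k, hk⟩ := (minc_zero hz.1.1).1 hz0
    exact Set.mem_iUnion.2 ⟨k, hz, hk⟩
  have hD : ContinuousOn (fun l => (mkCollar h).Y0 f l - (mkCollar h).Y0 g l)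
      ((mkCollar h).PP f g) :=
    ((Collar.continuousOn_Y0 (mkCollar h) f).sub (Collar.continuousOn_Y0 (mkCollar h) g)).mono
      fun l hl => hl.1.1
  obtain ⟨ε, hε, L', hL'c, -, hL'e⟩ := exists_log_near (isCompact_PP h f g)
    (m := minc) continuous_minc.continuousOn (fun z hz => minc_nonneg hz.1.1) hD (hMc.mono hsub)
    (by
      intro z hz hz0
      obtain ⟨k, hk⟩ := (minc_zero hz.1.1).1 hz0
      rw [hM k z ⟨hz, hk⟩]
      exact hLe k z hz hk)
  refine ⟨ε, hε, L', hL'c.mono ?_, fun l hl hi _ => hL'e l hl (minc_le.2 hi)⟩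
  rintro l ⟨hl, hi, -⟩
  exact ⟨hl, minc_le.2 hi⟩

end Pool.Agent.Lib.MP_fd6ff4_co.R43
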